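import Pool.Agent.Lib.MP_6bc78b_nt.H11.ZSum
import Pool.Agent.Lib.MP_6bc78b_nt.MS.QZ.Iface3

/-! Project MS, Part GL: two thirds of the Gaussian law for `log |ζ'(ρ)|` (under RH).
Statements of the modules; proofs: Paper.md. -/

set_option autoImplicit false

open Complex Filter Topology MeasureTheory ArithmeticFunction

namespace Pool.Agent.Lib.MP_6bc78b_nt.MS.GL

open Pool.Agent.Lib.MP_6bc78b_nt Pool.Agent.Lib.MP_6bc78b_nt.LL Pool.Agent.Lib.MP_6bc78b_nt.MS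
  Pool.Agent.Lib.MP_6bc78b_nt.MS.P1 Pool.Agent.Lib.MP_6bc78b_nt.MS.QZ

/-! ## Definitions -/

/-- The Poisson sum over the zeros at `1/2 + δ + iy`. -/
noncomputable def PD (δ y : ℝ) : ℝ := ∑' γ : ℝ, (mz γ : ℝ) * (δ / (δ ^ 2 + (y - γ) ^ 2))

/-- The logarithmic sum over the zeros different from `y`. -/
noncomputable def SL (δ y : ℝ) : ℝ :=
  ∑' γ : ℝ, if γ = y then 0 else (mz γ : ℝ) * Real.log (1 + δ ^ 2 / (y - γ) ^ 2)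

/-- The number of zeros (with multiplicity) within `c / log T` of `y`. -/
noncomputable def nC (c T y : ℝ) : ℝ := ∑ᶠ γ ∈ {γ : ℝ | |γ - y| ≤ c / Real.log T}, (mz γ : ℝ)

/-- A `C²` weight vanishing at `l`, bounded by `M` on `[0,l]` with its two derivatives. -/
def IsPhi (l M : ℝ) (φ : ℝ → ℝ) : Prop :=
  ContDiff ℝ 2 φ ∧ φ l = 0 ∧ ∀ ξ : ℝ, 0 ≤ ξ → ξ ≤ l →
    |φ ξ| ≤ M ∧ |deriv φ ξ| ≤ M ∧ |deriv (deriv φ) ξ| ≤ M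

/-- The entire kernel `∫_0^l φ(ξ) cosh(ξ w) dξ`. -/
noncomputable def kp (φ : ℝ → ℝ) (l : ℝ) (w : ℂ) : ℂ :=
  ∫ ξ in (0 : ℝ)..l, (φ ξ : ℂ) * Complex.cosh ((ξ : ℂ) * w)

/-- The prime sum with weight `φ(log n)`. -/
noncomputable def QP (φ : ℝ → ℝ) (lam T y : ℝ) : ℂ :=
  ∑ n ∈ Finset.Icc 1 ⌊T ^ lam⌋₊, ((vonMangoldt n * φ (Real.log n) : ℝ) : ℂ) *
    (n : ℂ) ^ (-(1 / 2 + y * I : ℂ))

/-- The weight belonging to the Poisson kernel. -/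
noncomputable def phd (δ l ξ : ℝ) : ℝ := Real.sinh (δ * (l - ξ)) / Real.cosh (δ * l)

/-- The integrated weight. -/
noncomputable def wn (lam K T : ℝ) (n : ℕ) : ℝ :=
  ∫ δ in (K / Real.log T)..(3 / 4), phd δ (lam * Real.log T) (Real.log n)

/-- The prime polynomial that approximates `log |ζ'|`. -/
noncomputable def QW (lam K T y : ℝ) : ℂ :=
  ∑ n ∈ Finset.Icc 1 ⌊T ^ lam⌋₊, ((vonMangoldt n * wn lam K T n : ℝ) : ℂ) *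
    (n : ℂ) ^ (-(1 / 2 + y * I : ℂ))

/-- Real coefficients of length `T^(1-δ)` and size at most `T^3`. -/
def AdmD (δ T : ℝ) (f : ArithmeticFunction ℝ) : Prop :=
  ∀ n : ℕ, |f n| ≤ T ^ (3 : ℝ) ∧ (f n ≠ 0 → (n : ℝ) ≤ T ^ (1 - δ))

/-- The nonnegative weight of Montgomery's argument. -/
noncomputable def WM (lam C T γ : ℝ) : ℝ :=
  1 / lam - 2 * (BB lam T (1 / 2 + γ * I)).re + C / (lam * Real.log T)

/-! ## Group A: the explicit formula -/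

/-- XGR: `ξ'/ξ` to the right of `3/2`. -/
def XgrStatement : Prop := ∃ C : ℝ, 0 < C ∧ ∀ s : ℂ, 3 / 2 ≤ s.re →
  xi s ≠ 0 ∧ ‖logDeriv xi s‖ ≤ C * Real.log (3 + ‖s‖)

/-- PFR (needs RH): partial fractions. -/
def PfrStatement : Prop := ∀ y δ : ℝ, 0 < δ → δ < 1 →
  Summable (fun γ : ℝ => (mz γ : ℝ) * (δ / (δ ^ 2 + (y - γ) ^ 2))) ∧
  xi (1 / 2 + δ + y * I) ≠ 0 ∧ (logDeriv xi (1 / 2 + δ + y * I)).re = PD δ y

/-- KPH: the kernel. -/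
def KphStatement : Prop := ∀ (l M : ℝ) (φ : ℝ → ℝ), 0 < l → IsPhi l M φ →
  Differentiable ℂ (kp φ l) ∧
  (∀ w : ℂ, |w.re| ≤ 1 → ‖kp φ l w‖ ≤ 8 * M * (1 + l) * Real.exp l / (1 + w.im ^ 2)) ∧
  (∀ w : ℂ, kp φ l (-w) = kp φ l w ∧
    kp φ l ((starRingEnd ℂ) w) = (starRingEnd ℂ) (kp φ l w)) ∧
  (∀ u : ℝ, kp φ l (u * I) = ((∫ ξ in (0 : ℝ)..l, φ ξ * Real.cos (ξ * u) : ℝ) : ℂ))

/-- KIN: inversion on the line `Re w = 1`. -/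
def KinStatement : Prop := ∀ (l M : ℝ) (φ : ℝ → ℝ), 0 < l → IsPhi l M φ →
  Integrable (fun x : ℝ => kp φ l (1 + x * I)) ∧
  ∀ v : ℝ, 0 ≤ v → ∫ x : ℝ, Complex.exp (-(v : ℂ) * (1 + x * I)) * kp φ l (1 + x * I) =
    ((Real.pi * (if v ≤ l then φ v else 0) : ℝ) : ℂ)

/-- EDI: the Dirichlet series part. -/
def EdiStatement : Prop := ∀ (T lam M y : ℝ) (φ : ℝ → ℝ), 1 < T → 0 < lam →
  IsPhi (lam * Real.log T) M φ →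
    Integrable (fun t : ℝ => logDeriv riemannZeta ((3 / 2 : ℝ) + t * I) *
      kp φ (lam * Real.log T) (1 + ((t - y : ℝ) : ℂ) * I)) ∧
    ∫ t : ℝ, logDeriv riemannZeta ((3 / 2 : ℝ) + t * I) *
      kp φ (lam * Real.log T) (1 + ((t - y : ℝ) : ℂ) * I) = -(Real.pi * QP φ lam T y)

/-- EGA: the Gamma part. -/
def EgaStatement : Prop := ∀ δ0 : ℝ, 0 < δ0 → δ0 < 1 → ∃ C : ℝ, 0 < C ∧
  ∀ (T lam M y : ℝ) (φ : ℝ → ℝ), 6 ≤ T → 1 ≤ lam * Real.log T → lam ≤ 1 - δ0 →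
  T / 2 < y → y < 2 * T → IsPhi (lam * Real.log T) M φ →
    Integrable (fun t : ℝ => gPart ((3 / 2 : ℝ) + t * I) *
      kp φ (lam * Real.log T) (1 + ((t - y : ℝ) : ℂ) * I)) ∧
    |(∫ t : ℝ, gPart ((3 / 2 : ℝ) + t * I) *
      kp φ (lam * Real.log T) (1 + ((t - y : ℝ) : ℂ) * I)).re -
        Real.pi / 2 * Real.log y * φ 0| ≤ C * M

/-- EXG (needs RH): the explicit formula. -/
def ExgStatement : Prop := ∀ δ0 : ℝ, 0 < δ0 → δ0 < 1 → ∃ C : ℝ, 0 < C ∧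
  ∀ (T lam M y : ℝ) (φ : ℝ → ℝ), 6 ≤ T → 1 ≤ lam * Real.log T → lam ≤ 1 - δ0 →
  T / 2 < y → y < 2 * T → IsPhi (lam * Real.log T) M φ →
    Summable (fun γ : ℝ => (mz γ : ℝ) *
      ∫ ξ in (0 : ℝ)..(lam * Real.log T), φ ξ * Real.cos (ξ * (y - γ))) ∧
    |(∑' γ : ℝ, (mz γ : ℝ) *
      ∫ ξ in (0 : ℝ)..(lam * Real.log T), φ ξ * Real.cos (ξ * (y - γ))) -
        1 / 2 * Real.log y * φ 0 + (QP φ lam T y).re| ≤ C * M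

/-- PTC (needs RH): the number of zeros near `y`. -/
def PtcStatement : Prop := ∀ δ0 : ℝ, 0 < δ0 → δ0 < 1 → ∃ C : ℝ, 0 < C ∧
  ∀ T lam c y : ℝ, 6 ≤ T → 1 ≤ lam * Real.log T → lam ≤ 1 - δ0 → 0 ≤ c → c ≤ 1 →
  T / 2 < y → y < 2 * T → (1 - c ^ 2) * nC c T y ≤ WM lam C T y

/-- EXD (needs RH): the Poisson sum against primes. -/
def ExdStatement : Prop := ∀ δ0 : ℝ, 0 < δ0 → δ0 < 1 → ∃ C : ℝ, 0 < C ∧
  ∀ T lam y δ : ℝ, 6 ≤ T → 1 ≤ lam * Real.log T → lam ≤ 1 - δ0 →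
  T / 2 < y → y < 2 * T → 0 < δ → δ ≤ 3 / 4 →
    |PD δ y - 1 / 2 * Real.log y * Real.tanh (δ * (lam * Real.log T)) +
      (QP (phd δ (lam * Real.log T)) lam T y).re| ≤
        C + PD δ y / Real.cosh (δ * (lam * Real.log T))

/-! ## Group B: the derivative at a simple zero -/

/-- LX1 (needs RH): integration of the Poisson sum. -/
def Lx1Statement : Prop := ∀ y δ1 : ℝ, 0 < δ1 → δ1 < 3 / 4 →
  ContinuousOn (fun δ => PD δ y) (Set.Icc δ1 (3 / 4)) ∧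
  Real.log ‖xi (1 / 2 + (3 / 4 : ℝ) + y * I)‖ - Real.log ‖xi (1 / 2 + δ1 + y * I)‖ =
    ∫ δ in δ1..(3 / 4), PD δ y

/-- LX2 (needs RH): the derivative of `ξ` at a simple zero. -/
def Lx2Statement : Prop := ∀ y δ1 : ℝ, mz y = 1 → 0 < δ1 → δ1 < 1 →
  Summable (fun γ : ℝ => if γ = y then 0 else (mz γ : ℝ) * Real.log (1 + δ1 ^ 2 / (y - γ) ^ 2)) ∧
  deriv xi (1 / 2 + y * I) ≠ 0 ∧
  Real.log ‖deriv xi (1 / 2 + y * I)‖ =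
    Real.log ‖xi (1 / 2 + δ1 + y * I)‖ - Real.log δ1 - 1 / 2 * SL δ1 y

/-- STG: the Gamma factor. -/
def StgStatement : Prop := ∃ C : ℝ, 0 < C ∧ ∀ y : ℝ, 3 ≤ y →
  |Real.log ‖(1 / 2 + (3 / 4 : ℝ) + y * I : ℂ) * ((1 / 2 + (3 / 4 : ℝ) + y * I : ℂ) - 1) *
      Gammaℝ (1 / 2 + (3 / 4 : ℝ) + y * I)‖ -
    Real.log ‖(1 / 2 + y * I : ℂ) * ((1 / 2 + y * I : ℂ) - 1) * Gammaℝ (1 / 2 + y * I)‖ -
      3 / 8 * Real.log y| ≤ C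

/-- LZM (needs RH): the logarithm of the derivative at a simple zero. -/
def LzmStatement : Prop := ∀ lam K : ℝ, 0 < lam → lam < 1 → 1 ≤ K → ∃ C T0 : ℝ, 0 < C ∧ 3 < T0 ∧
  ∀ T : ℝ, T0 ≤ T → ∀ γ ∈ zset T, mz γ = 1 →
    |Real.log ‖deriv riemannZeta (1 / 2 + γ * I)‖ - Real.log (Real.log T) -
      (QW lam K T γ).re + 1 / 2 * SL (K / Real.log T) γ| ≤ C +
        ∫ δ in (K / Real.log T)..(3 / 4), PD δ γ / Real.cosh (δ * (lam * Real.log T))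

/-! ## Group C: averages over the zeros -/

/-- WNB: the coefficients of `QW`. -/
def WnbStatement : Prop := ∀ lam K : ℝ, 0 < lam → lam < 1 → 1 ≤ K → ∃ T0 : ℝ, 3 < T0 ∧
  ∀ T : ℝ, T0 ≤ T → ∀ n : ℕ, 2 ≤ n → (n : ℝ) ≤ T ^ lam →
    0 ≤ wn lam K T n ∧ Real.log n * wn lam K T n ≤ 1 ∧
    |Real.log n * wn lam K T n - 1| ≤
      (K + 2 / lam) * (Real.log n / Real.log T) + (n : ℝ) ^ (-(3 / 4) : ℝ)

/-- QDM: `QW` against the short prime sum, in mean square. -/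
def QdmStatement : Prop := ∀ lam K : ℝ, 0 < lam → lam < 1 → 1 ≤ K → ∃ C T0 : ℝ, 0 < C ∧ 3 < T0 ∧
  ∀ T : ℝ, T0 ≤ T →
    ∑ᶠ γ ∈ zset T, (mz γ : ℝ) * wt T γ * ‖QW lam K T γ - P0 T γ‖ ^ 2 ≤
      C * (cG T * Real.log T) * (1 + Real.log (ll T))

/-- MPD: the mean of the Poisson sum. -/
def MpdStatement : Prop := ∀ lam : ℝ, 0 < lam → lam < 1 → ∃ C T0 : ℝ, 0 < C ∧ 3 < T0 ∧
  ∀ T : ℝ, T0 ≤ T → ∀ δ : ℝ, 4 / (lam * Real.log T) ≤ δ → δ ≤ 3 / 4 →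
    ∑ᶠ γ ∈ zset T, (mz γ : ℝ) * wt T γ * PD δ γ ≤ C * (cG T * Real.log T) * Real.log T

/-- ERI: the mean of the error integral. -/
def EriStatement : Prop := ∀ lam K : ℝ, 0 < lam → lam < 1 → 4 / lam ≤ K → ∃ C T0 : ℝ,
  0 < C ∧ 3 < T0 ∧ ∀ T : ℝ, T0 ≤ T →
    ∑ᶠ γ ∈ zset T, (mz γ : ℝ) * wt T γ *
      (∫ δ in (K / Real.log T)..(3 / 4), PD δ γ / Real.cosh (δ * (lam * Real.log T))) ≤
        C * (cG T * Real.log T)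

/-- SPL: isolated zeros. -/
def SplStatement : Prop := ∀ c K T γ : ℝ, 0 < c → c ≤ 1 → 1 ≤ K → 3 < T → K / Real.log T < 1 →
  γ ∈ zset T → nC c T γ = 1 →
    mz γ = 1 ∧ SL (K / Real.log T) γ ≤
      (1 + K ^ 2 / c ^ 2) * (K / Real.log T) * PD (K / Real.log T) γ

/-- CMU: upper bound for `log |ζ'|` at simple zeros. -/
def CmuStatement : Prop := ∀ ε : ℝ, 0 < ε → ∀ᶠ T : ℝ in atTop,
  ∑ᶠ γ ∈ {γ | γ ∈ zset T ∧ mz γ = 1 ∧ ε * Real.sqrt (ll T) <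
    Real.log ‖deriv riemannZeta (1 / 2 + γ * I)‖ - Real.log (Real.log T) - (P0 T γ).re},
      wt T γ ≤ ε * (cG T * Real.log T)

/-- CMP: `log |ζ'|` at isolated zeros. -/
def CmpStatement : Prop := ∀ c ε : ℝ, 0 < c → c < 1 → 0 < ε → ∀ᶠ T : ℝ in atTop,
  ∑ᶠ γ ∈ {γ | γ ∈ zset T ∧ nC c T γ = 1 ∧ ε * Real.sqrt (ll T) <
    |Real.log ‖deriv riemannZeta (1 / 2 + γ * I)‖ - Real.log (Real.log T) - (P0 T γ).re|},
      wt T γ ≤ ε * (cG T * Real.log T)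

/-! ## Group D: Montgomery's argument in the slices -/

/-- MV2: mean values on the critical line, any length below `T`. -/
def Mv2Statement : Prop := ∀ δ : ℝ, 0 < δ → δ < 1 → ∃ T0 : ℝ, 3 < T0 ∧ ∀ T : ℝ, T0 ≤ T →
  ∀ f g : ArithmeticFunction ℝ, AdmD δ T f → AdmD δ T g →
    Integrable (fun t : ℝ => (dpoly f (T ^ (1 - δ)) (1 / 2 + t * I) *
      (starRingEnd ℂ) (dpoly g (T ^ (1 - δ)) (1 / 2 + t * I))).re * wt T t) ∧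
    |(1 / (2 * Real.pi)) * (∫ t : ℝ, (dpoly f (T ^ (1 - δ)) (1 / 2 + t * I) *
      (starRingEnd ℂ) (dpoly g (T ^ (1 - δ)) (1 / 2 + t * I))).re * wt T t) -
      cG T * ∑ n ∈ Finset.Icc 1 ⌊T ^ (1 - δ)⌋₊, f n * g n / (n : ℝ)| ≤ 1 / T

/-- SM2 (needs RH): mean values over the zeros, any length below `T`. -/
def Sm2Statement : Prop := ∀ δ : ℝ, 0 < δ → δ < 1 → ∃ C T0 : ℝ, 0 < C ∧ 3 < T0 ∧
  ∀ T : ℝ, T0 ≤ T → ∀ f g : ArithmeticFunction ℝ, AdmD δ T f → AdmD δ T g →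
    |∑ᶠ γ ∈ zset T, (mz γ : ℝ) * wt T γ * (dpoly f (T ^ (1 - δ)) (1 / 2 + γ * I) *
        (starRingEnd ℂ) (dpoly g (T ^ (1 - δ)) (1 / 2 + γ * I))).re -
      cG T * (Real.log T * ∑ n ∈ Finset.Icc 1 ⌊T ^ (1 - δ)⌋₊, f n * g n / (n : ℝ) -
        ∑ n ∈ Finset.Icc 1 ⌊T ^ (1 - δ)⌋₊, (La * f) n * g n / (n : ℝ) -
        ∑ n ∈ Finset.Icc 1 ⌊T ^ (1 - δ)⌋₊, (La * g) n * f n / (n : ℝ))| ≤
    C * (cG T * (∑ n ∈ Finset.Icc 1 ⌊T ^ (1 - δ)⌋₊, (f n ^ 2 + g n ^ 2) / (n : ℝ)) + 1)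

/-- LA2: sums with two von Mangoldt functions on the numbers composed of small primes. -/
def La2Statement : Prop := ∀ a b : ℕ, ∃ C : ℝ, 0 < C ∧ ∀ (y : ℝ) (N : ℕ), 3 ≤ y →
  1 ≤ rs (prs 1 y) →
    ∑ n ∈ (Finset.Icc 1 N).filter (fun n => n.primeFactors ⊆ prs 1 y),
      (La * pS (prs 1 y) ^ a) n * (La * pS (prs 1 y) ^ b) n / (n : ℝ) ≤
        C * Real.log y ^ 2 * rs (prs 1 y) ^ (min a b)

/-- DB1: the small diagonal sums. -/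
def Db1Statement : Prop := ∀ (lam δ : ℝ) (a b : ℕ), 0 < lam → 0 < δ → lam < 1 - δ →
  ∃ C T0 : ℝ, 0 < C ∧ 3 < T0 ∧ ∀ T : ℝ, T0 ≤ T →
    AdmD δ T (bb lam T * pS (SS T 0) ^ a) ∧ AdmD δ T (pS (SS T 0) ^ b) ∧
    ∑ n ∈ Finset.Icc 1 ⌊T ^ (1 - δ)⌋₊, ((bb lam T * pS (SS T 0) ^ a) n ^ 2 +
      (pS (SS T 0) ^ b) n ^ 2) / (n : ℝ) ≤ C * ll T ^ (a + b) ∧
    |∑ n ∈ Finset.Icc 1 ⌊T ^ (1 - δ)⌋₊, (bb lam T * pS (SS T 0) ^ a) n *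
      (pS (SS T 0) ^ b) n / (n : ℝ)| ≤ C * Real.sqrt (ll T) ^ (a + b) / ll T ^ 2 ∧
    |∑ n ∈ Finset.Icc 1 ⌊T ^ (1 - δ)⌋₊, (La * (bb lam T * pS (SS T 0) ^ a)) n *
      (pS (SS T 0) ^ b) n / (n : ℝ)| ≤
        C * Real.log T * Real.sqrt (ll T) ^ (a + b) / ll T ^ 2

/-- DB2: the main diagonal sum. -/
def Db2Statement : Prop := ∀ (lam δ : ℝ) (a b : ℕ), 0 < lam → 0 < δ → lam < 1 - δ →
  Tendsto (fun T : ℝ => (∑ n ∈ Finset.Icc 1 ⌊T ^ (1 - δ)⌋₊, (La * pS (SS T 0) ^ b) n *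
    (bb lam T * pS (SS T 0) ^ a) n / (n : ℝ)) /
      (Real.log T * Real.sqrt (ll T) ^ (a + b))) atTop
    (𝓝 (lam / 6 * (if a = b then (a.factorial : ℝ) else 0)))

/-- MOB: the prime polynomial against the moments of the short prime sum. -/
def MobStatement : Prop := ∀ (lam : ℝ) (a b : ℕ), 0 < lam → lam < 1 → Tendsto (fun T : ℝ =>
  (∑ᶠ γ ∈ zset T, (mz γ : ℝ) * wt T γ * (BB lam T (1 / 2 + γ * I) *
    (P0 T γ ^ a * (starRingEnd ℂ) (P0 T γ) ^ b)).re) /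
      (cG T * Real.log T * Real.sqrt (ll T) ^ (a + b))) atTop
  (𝓝 (-(lam / 6 * (if a = b then (a.factorial : ℝ) else 0))))

/-- MRB: the moments with Montgomery's weight. -/
def MrbStatement : Prop := ∀ (lam C : ℝ) (k : ℕ), 0 < lam → lam < 1 → Tendsto (fun T : ℝ =>
  (∑ᶠ γ ∈ zset T, (mz γ : ℝ) * wt T γ * (WM lam C T γ * X0 T γ ^ k)) /
    (cG T * Real.log T)) atTop (𝓝 ((1 / lam + lam / 3) * gm k))

/-- LIT: the distribution of the normalized prime sum over the zeros, two-sided. -/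
def LitStatement : Prop := ∀ x ε : ℝ, 0 < ε → ∀ᶠ T : ℝ in atTop,
  |∑ᶠ γ ∈ {γ | γ ∈ zset T ∧ x < X0 T γ}, (mz γ : ℝ) * wt T γ -
    Qf x * (cG T * Real.log T)| ≤ ε * (cG T * Real.log T)

/-- SLI (needs RH): the distribution with Montgomery's weight. -/
def SliStatement : Prop := ∀ lam : ℝ, 0 < lam → lam < 1 → ∃ C : ℝ, 0 < C ∧
  (∀ᶠ T : ℝ in atTop, ∀ γ ∈ zset T, ∀ c : ℝ, 0 ≤ c → c ≤ 1 →
    (1 - c ^ 2) * nC c T γ ≤ WM lam C T γ) ∧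
  ∀ x ε : ℝ, 0 < ε → ∀ᶠ T : ℝ in atTop,
    |∑ᶠ γ ∈ {γ | γ ∈ zset T ∧ x < X0 T γ}, (mz γ : ℝ) * wt T γ * WM lam C T γ -
      (1 / lam + lam / 3) * Qf x * (cG T * Real.log T)| ≤ ε * (cG T * Real.log T)

/-- SEP: two thirds of the zeros of every slice are isolated. -/
def SepStatement : Prop := ∀ a b ε : ℝ, a < b → 0 < ε → ∃ c : ℝ, 0 < c ∧ c < 1 ∧
  ∀ᶠ T : ℝ in atTop, (2 / 3 * (Qf a - Qf b) - ε) * (cG T * Real.log T) ≤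
    ∑ᶠ γ ∈ {γ | γ ∈ zset T ∧ a < X0 T γ ∧ X0 T γ ≤ b ∧ nC c T γ = 1}, wt T γ

/-- QSY: symmetry of the normal distribution, and intervals. -/
def QsyStatement : Prop := ∀ a b : ℝ, a ≤ b →
  Qf (-b) - Qf (-a) = Qf a - Qf b ∧
  (Real.sqrt (2 * Real.pi))⁻¹ * (∫ u in a..b, Real.exp (-(u ^ 2 / 2))) = Qf a - Qf b

/-! ## Group E: the final step -/

/-- The set of all members of the family `H` up to `T`. -/
def SH (H : ℝ → Set ℝ) (A X1 T : ℝ) : Set ℝ :=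
  {γ : ℝ | γ ≤ T ∧ ∃ T' : ℝ, X1 ≤ T' ∧ γ ∈ H T' ∧ γ ∈ zset T' ∧ |γ - T'| ≤ A * DD T'}

/-- CNL (needs RH): from weights to counts. -/
def CnlStatement : Prop := ∀ (q A ε : ℝ) (κ : ℝ → ℝ) (H : ℝ → Set ℝ), 0 < q → 1 ≤ A → 0 < ε →
  (∀ γ, 0 ≤ κ γ) →
  (∀ᶠ T : ℝ in atTop, H T ⊆ {γ : ℝ | γ ∈ zset T ∧ |γ - T| ≤ A * DD T} ∧
    q * (cG T * Real.log T) ≤ ∑ᶠ γ ∈ H T, κ γ * wt T γ) →
  ∀ X1 : ℝ, ∃ T0 : ℝ, ∀ T : ℝ, T0 ≤ T →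
    (SH H A X1 T).Finite ∧ (q - ε) * NZ T ≤ ∑ᶠ γ ∈ SH H A X1 T, κ γ

/-- The normalized logarithm of `|Z'(γ)|`. -/
noncomputable def YZ (γ : ℝ) : ℝ :=
  Real.log (|deriv hardyZ γ| / Real.log γ) / Real.sqrt (Real.log (Real.log γ) / 2)

/-- FGB: the lower bound in every interval (to be proved under RH). -/
def FgbStatement : Prop := ∀ a b ε : ℝ, a < b → 0 < ε → ∃ T0 : ℝ, ∀ T : ℝ, T0 ≤ T →
  (2 / 3 * (Qf a - Qf b) - ε) * NZ T ≤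
    ({γ : ℝ | 3 < γ ∧ γ ≤ T ∧ hardyZ γ = 0 ∧ deriv hardyZ γ ≠ 0 ∧ a < YZ γ ∧ YZ γ < b}.ncard : ℝ)

/-- FGU: the upper bound for the upper tail (to be proved under RH). -/
def FguStatement : Prop := ∀ x ε : ℝ, 0 < ε → ∃ T0 : ℝ, ∀ T : ℝ, T0 ≤ T →
  ({γ : ℝ | 3 < γ ∧ γ ≤ T ∧ hardyZ γ = 0 ∧ deriv hardyZ γ ≠ 0 ∧ x < YZ γ}.ncard : ℝ) ≤
    (Qf x + ε) * NZ T

/-- The final statement. -/
def GlStatement : Prop := FgbStatement ∧ FguStatement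

end Pool.Agent.Lib.MP_6bc78b_nt.MS.GL
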