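import Pool.Agent.Lib.MP_6bc78b_nt.MS.GL.Iface

/-! Project MS, Part GL, second file: general open sets, and the union form.
Statements of the modules; proofs: Paper.md, section F. -/

set_option autoImplicit false

open Complex Filter Topology MeasureTheory ArithmeticFunction

namespace Pool.Agent.Lib.MP_6bc78b_nt.MS.GL

open Pool.Agent.Lib.MP_6bc78b_nt Pool.Agent.Lib.MP_6bc78b_nt.LL Pool.Agent.Lib.MP_6bc78b_nt.MS
  Pool.Agent.Lib.MP_6bc78b_nt.MS.P1 Pool.Agent.Lib.MP_6bc78b_nt.MS.QZ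

/-- TYJ: the mollifier against the short prime sum, for most zeros. -/
def TyjStatement : Prop := ∀ th c1 c2 ε : ℝ, 0 < th → th < 1 / 2 → 0 < ε →
  ∀ᶠ T : ℝ in atTop,
    ∑ᶠ γ ∈ {γ | γ ∈ zset T ∧ Real.exp (ε * Real.sqrt (ll T) - (P0 T γ).re) <
      ‖MM th c1 c2 T (1 / 2 + γ * I)‖}, (mz γ : ℝ) * wt T γ ≤ ε * (cG T * Real.log T)

/-- The simple zeros in `(3, T]` whose normalized logarithm lies in `U`. -/
def NU (U : Set ℝ) (T : ℝ) : Set ℝ :=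
  {γ : ℝ | 3 < γ ∧ γ ≤ T ∧ hardyZ γ = 0 ∧ deriv hardyZ γ ≠ 0 ∧ YZ γ ∈ U}

/-- FGW: the union form (to be proved under RH). -/
def FgwStatement : Prop := ∀ (J : Finset (ℝ × ℝ)) (ε : ℝ), 0 < ε → (∀ p ∈ J, p.1 < p.2) →
  (J : Set (ℝ × ℝ)).PairwiseDisjoint (fun p => Set.Ioo p.1 p.2) →
  ∃ T0 : ℝ, ∀ T : ℝ, T0 ≤ T →
    (∑ p ∈ J, (Qf p.1 - Qf p.2) - 8 / 27 - ε) * NZ T ≤
      ((NU (⋃ p ∈ J, Set.Ioo p.1 p.2) T).ncard : ℝ)

/-- BDZ: few zeros are neither isolated nor with a large mollified derivative (joined quadratic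
form of Part IV, with `nC` in place of the multiplicity). -/
def BdzStatement : Prop := ∃ th c1 c2 c η : ℝ, 0 < th ∧ th < 1 / 2 ∧ 0 < c ∧ c < 1 ∧ 0 < η ∧
  ∀ᶠ T : ℝ in atTop,
    ∑ᶠ γ ∈ {γ | γ ∈ zset T ∧ (nC c T γ ≠ 1 ∧
      ‖vv th c1 c2 T (1 / 2 + γ * I)‖ ≤ η * Real.log T)}, (mz γ : ℝ) * wt T γ ≤
      0.29295 * (cG T * Real.log T)

/-- FGV: the union form with the constant of the joined quadratic form. -/
def FgvStatement : Prop := ∀ (J : Finset (ℝ × ℝ)) (ε : ℝ), 0 < ε → (∀ p ∈ J, p.1 < p.2) →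
  (J : Set (ℝ × ℝ)).PairwiseDisjoint (fun p => Set.Ioo p.1 p.2) →
  ∃ T0 : ℝ, ∀ T : ℝ, T0 ≤ T →
    (∑ p ∈ J, (Qf p.1 - Qf p.2) - 0.29295 - ε) * NZ T ≤
      ((NU (⋃ p ∈ J, Set.Ioo p.1 p.2) T).ncard : ℝ)

/-- OPV: the lower bound for open sets with the constant of the joined quadratic form. -/
def OpvStatement : Prop := ∀ (U : Set ℝ) (ε : ℝ), IsOpen U → 0 < ε → ∃ T0 : ℝ, ∀ T : ℝ, T0 ≤ T →
  (max (2 / 3 * (ProbabilityTheory.gaussianReal 0 1).real U)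
    ((ProbabilityTheory.gaussianReal 0 1).real U - 0.29295) - ε) * NZ T ≤ ((NU U T).ncard : ℝ)

/-- OPA: approximation of open sets from inside. -/
def OpaStatement : Prop := ∀ (U : Set ℝ) (ε : ℝ), IsOpen U → 0 < ε → ∃ J : Finset (ℝ × ℝ),
  (∀ p ∈ J, p.1 < p.2) ∧ (J : Set (ℝ × ℝ)).PairwiseDisjoint (fun p => Set.Ioo p.1 p.2) ∧
  (⋃ p ∈ J, Set.Ioo p.1 p.2) ⊆ U ∧
  (ProbabilityTheory.gaussianReal 0 1).real U ≤ ∑ p ∈ J, (Qf p.1 - Qf p.2) + ε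

/-- OPN: the lower bound for open sets (to be proved under RH). -/
def OpnStatement : Prop := ∀ (U : Set ℝ) (ε : ℝ), IsOpen U → 0 < ε → ∃ T0 : ℝ, ∀ T : ℝ, T0 ≤ T →
  (max (2 / 3 * (ProbabilityTheory.gaussianReal 0 1).real U)
    ((ProbabilityTheory.gaussianReal 0 1).real U - 8 / 27) - ε) * NZ T ≤ ((NU U T).ncard : ℝ)

/-- UPN: the upper bound for the upper tail (to be proved under RH). -/
def UpnStatement : Prop := ∀ x ε : ℝ, 0 < ε → ∃ T0 : ℝ, ∀ T : ℝ, T0 ≤ T →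
  ((NU (Set.Ioi x) T).ncard : ℝ) ≤
    ((ProbabilityTheory.gaussianReal 0 1).real (Set.Ioi x) + ε) * NZ T

end Pool.Agent.Lib.MP_6bc78b_nt.MS.GL
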