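import Pool.Agent.Lib.MP_6bc78b_nt.MS.QZ.FinalG
import Pool.Agent.Lib.MP_6bc78b_nt.MS.GL.Iface2
import Pool.Agent.Lib.MP_6bc78b_nt.MS.GL.H5.Xgr
import Pool.Agent.Lib.MP_6bc78b_nt.MS.GL.H15.La2
import Pool.Agent.Lib.MP_6bc78b_nt.MS.GL.H17.Kin
import Pool.Agent.Lib.MP_6bc78b_nt.MS.GL.H17.Edi
import Pool.Agent.Lib.MP_6bc78b_nt.MS.GL.H17.Exg
import Pool.Agent.Lib.MP_6bc78b_nt.MS.GL.H17.Lx1
import Pool.Agent.Lib.MP_6bc78b_nt.MS.GL.H17.Lx2
import Pool.Agent.Lib.MP_6bc78b_nt.MS.GL.H17.Sli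
import Pool.Agent.Lib.MP_6bc78b_nt.MS.GL.H19.Spl
import Pool.Agent.Lib.MP_6bc78b_nt.MS.GL.H22.Exd
import Pool.Agent.Lib.MP_6bc78b_nt.MS.GL.H23.Db1
import Pool.Agent.Lib.MP_6bc78b_nt.MS.GL.H23.Tyj
import Pool.Agent.Lib.MP_6bc78b_nt.MS.GL.H43.Sm2
import Pool.Agent.Lib.MP_6bc78b_nt.MS.GL.H46.Qsy
import Pool.Agent.Lib.MP_6bc78b_nt.MS.GL.H56.Stg
import Pool.Agent.Lib.MP_6bc78b_nt.MS.GL.H74.Opa
import Pool.Agent.Lib.MP_6bc78b_nt.MS.GL.H75.Cmp
import Pool.Agent.Lib.MP_6bc78b_nt.MS.GL.H75.Cnl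
import Pool.Agent.Lib.MP_6bc78b_nt.MS.GL.H76.Ega
import Pool.Agent.Lib.MP_6bc78b_nt.MS.GL.H76.Mv2
import Pool.Agent.Lib.MP_6bc78b_nt.MS.GL.H78.Sep
import Pool.Agent.Lib.MP_6bc78b_nt.MS.GL.H79.Lzm
import Pool.Agent.Lib.MP_6bc78b_nt.MS.GL.H79.Wnb
import Pool.Agent.Lib.MP_6bc78b_nt.MS.GL.H81.Fgb
import Pool.Agent.Lib.MP_6bc78b_nt.MS.GL.H81.Fgu
import Pool.Agent.Lib.MP_6bc78b_nt.MS.GL.H81.Fgw
import Pool.Agent.Lib.MP_6bc78b_nt.MS.GL.H81.Opn
import Pool.Agent.Lib.MP_6bc78b_nt.MS.GL.H81.Bdz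
import Pool.Agent.Lib.MP_6bc78b_nt.MS.GL.H81.Fgv
import Pool.Agent.Lib.MP_6bc78b_nt.MS.GL.H82.Mpd
import Pool.Agent.Lib.MP_6bc78b_nt.MS.GL.H82.Qdm
import Pool.Agent.Lib.MP_6bc78b_nt.MS.GL.H84.Pfr
import Pool.Agent.Lib.MP_6bc78b_nt.MS.GL.H93.Mrb
import Pool.Agent.Lib.MP_6bc78b_nt.MS.GL.H94.Kph
import Pool.Agent.Lib.MP_6bc78b_nt.MS.GL.H97.Ptc
import Pool.Agent.Lib.MP_6bc78b_nt.MS.GL.H62.Db2
import Pool.Agent.Lib.MP_6bc78b_nt.MS.GL.H81.Eri
import Pool.Agent.Lib.MP_6bc78b_nt.MS.GL.H81.Lit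
import Pool.Agent.Lib.MP_6bc78b_nt.MS.GL.H48.Mob

/-! Project MS, Part GL: the final theorems under the Riemann hypothesis. -/

set_option autoImplicit false

namespace Pool.Agent.Lib.MP_6bc78b_nt.MS.GL

open Pool.Agent.Lib.MP_6bc78b_nt
open Pool.Agent.Lib.MP_6bc78b_nt.MS Pool.Agent.Lib.MP_6bc78b_nt.MS.P1
  Pool.Agent.Lib.MP_6bc78b_nt.MS.QZ

theorem pfrF (hRH : RiemannHypothesis) : PfrStatement := H84.pfr hRH H5.xgr

theorem kinF : KinStatement := H17.kin H94.kph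

theorem exgF (hRH : RiemannHypothesis) : ExgStatement :=
  H17.exg hRH H94.kph (H17.edi H94.kph kinF) (H76.ega H94.kph kinF)

theorem ptcF (hRH : RiemannHypothesis) : PtcStatement := H97.ptc (exgF hRH)

theorem exdF (hRH : RiemannHypothesis) : ExdStatement := H22.exd (exgF hRH) (pfrF hRH)

theorem lx1F (hRH : RiemannHypothesis) : Lx1Statement := H17.lx1 (pfrF hRH)

theorem lx2F (hRH : RiemannHypothesis) : Lx2Statement := H17.lx2 (pfrF hRH)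

theorem lzmF (hRH : RiemannHypothesis) : LzmStatement :=
  H79.lzm (lx1F hRH) (lx2F hRH) H56.stg (exdF hRH)

theorem qdmF (hRH : RiemannHypothesis) : QdmStatement :=
  H82.qdm (dmvF hRH) H79.wnb mr2F L.H61.mer

theorem mpdF (hRH : RiemannHypothesis) : MpdStatement :=
  H82.mpd (exdF hRH) (dmvF hRH) L.H61.mer

theorem eriF (hRH : RiemannHypothesis) : EriStatement :=
  H81.eri (mpdF hRH) (lx1F hRH) P4.H30.zfac

theorem splF (hRH : RiemannHypothesis) : SplStatement := H19.spl (pfrF hRH) P4.H30.zfac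

theorem cmpF (hRH : RiemannHypothesis) : CmpStatement :=
  H75.cmp (lzmF hRH) (qdmF hRH) (mpdF hRH) (eriF hRH) P4.H30.zfac (splF hRH)

theorem cmuF (hRH : RiemannHypothesis) : CmuStatement :=
  H75.cmu (lzmF hRH) (qdmF hRH) (mpdF hRH) (eriF hRH) P4.H30.zfac

theorem mv2F : Mv2Statement := H76.mv2 GAU.gau DDF.ddf

theorem sm2F (hRH : RiemannHypothesis) : Sm2Statement :=
  H43.sm2 (zsfF hRH) tailF edg1F CHO.cho LSER.lser
    (P5.H51.mov CHI.chi CHO.cho GAU.gau DDF.ddf) CHI.chi DDF.ddf mv2F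

theorem la2F : La2Statement := H15.la2 vnuF psmF L.H61.mer

theorem db1F : Db1Statement := H23.db1 vnuF psmF L.H61.mer mr2F

theorem litF (hRH : RiemannHypothesis) : LitStatement :=
  H81.lit (morF hRH) H15.chf H17.lev P4.H30.zfac

theorem tyjF (hRH : RiemannHypothesis) : TyjStatement :=
  H23.tyj (badF hRH) H93.tay cf0F pi0F (dmvF hRH) (na0F hRH) sclF

theorem cnlF (hRH : RiemannHypothesis) : CnlStatement :=
  H75.cnl H02.grid (P5.nasF hRH) P4.H30.zfac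

theorem db2F : Db2Statement := H62.db2 vnuF diaF la2F PRIM.prim mr2F

theorem mobF (hRH : RiemannHypothesis) : MobStatement := H48.mob (sm2F hRH) db1F db2F

theorem mrbF (hRH : RiemannHypothesis) : MrbStatement :=
  H93.mrb (morF hRH) (mobF hRH) P4.H30.zfac

theorem sliF (hRH : RiemannHypothesis) : SliStatement :=
  H17.sli (ptcF hRH) (mrbF hRH) H15.chf H17.lev P4.H30.zfac

theorem sepF (hRH : RiemannHypothesis) : SepStatement := H78.sep (sliF hRH) (litF hRH)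

theorem farF (hRH : RiemannHypothesis) : FarStatement := H03.far (znF hRH) P4.H30.zfac

theorem fgbF (hRH : RiemannHypothesis) : FgbStatement :=
  H81.fgb (farF hRH) (sepF hRH) (cmpF hRH) (splF hRH) (cnlF hRH) H75.dhz P4.H30.zfac H46.qsy
    H70.qfc

theorem fguF (hRH : RiemannHypothesis) : FguStatement :=
  H81.fgu (farF hRH) (litF hRH) (cmuF hRH) (cnlF hRH) H75.dhz P4.H30.zfac H70.qfc

theorem qslF (hRH : RiemannHypothesis) : QslStatement :=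
  P4.H70.qsl (P4.H70.qsa P4.H30.zfac) (znF hRH) (zvF hRH) (zvbF hRH) (zvvF hRH)
    (zbF hRH) (zbbF hRH) npF (L.lv hRH) (L.lvb hRH) (P3.lvvF hRH)

theorem bdzF (hRH : RiemannHypothesis) : BdzStatement :=
  H81.bdz (ptcF hRH) (qslF hRH) P4.H70.num P4.H30.zfac

theorem fgvF (hRH : RiemannHypothesis) : FgvStatement :=
  H81.fgv (bdzF hRH) (tyjF hRH) (cmuF hRH) (cmpF hRH) (farF hRH) (litF hRH) (cnlF hRH) H75.dhz
    P4.H30.zfac H46.qsy H70.qfc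

/-- Part GL under the Riemann hypothesis: the lower bound for open sets. -/
theorem opvF (hRH : RiemannHypothesis) : OpvStatement :=
  H81.opv (fgbF hRH) (fgvF hRH) H74.opa P4.H30.zfac

/-- Part GL under the Riemann hypothesis: the upper bound for the upper tail. -/
theorem upnF (hRH : RiemannHypothesis) : UpnStatement := H81.upn (fguF hRH)

end Pool.Agent.Lib.MP_6bc78b_nt.MS.GL
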